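import Pool.Agent.H390R2.LP.Iface

/-!
Subdivision of cells: a one-site state on a coarse grid gives a one-site state on the `N` times
finer grid (piecewise constant extension); `S` is unchanged, `h` grows by `log N`, the energy by
`(1 / 6) (1 - 1 / N ^ 2)`.
-/

open Finset

namespace Pool.Agent.H785R2.LP

open Pool.Agent.H390R2.LP

/-- an orthonormal basis of `ℝᴺ` whose first vector is constant -/
theorem exists_basis (N : ℕ) (hN : 0 < N) :
    ∃ e : Fin N → Fin N → ℝ,
      (∀ i j, ∑ k, e i k * e j k = if i = j then 1 else 0) ∧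
      (∀ k, e ⟨0, hN⟩ k = (√(N : ℝ))⁻¹) := by
  classical
  have hN' : (0 : ℝ) < N := by exact_mod_cast hN
  have hs : √(N : ℝ) ≠ 0 := (Real.sqrt_pos.mpr hN').ne'
  set v : Fin N → EuclideanSpace ℝ (Fin N) := fun _ => WithLp.toLp 2 fun _ => (√(N : ℝ))⁻¹ with hv
  have hortho : Orthonormal ℝ (({(⟨0, hN⟩ : Fin N)} : Set (Fin N)).domRestrict v) := by
    constructor
    · rintro ⟨i, hi⟩
      show ‖v i‖ = 1
      rw [hv, EuclideanSpace.norm_eq]
      have : ∑ x : Fin N, ‖(WithLp.toLp 2 fun _ : Fin N => (√(N : ℝ))⁻¹ :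
          EuclideanSpace ℝ (Fin N)) x‖ ^ 2 = 1 := by
        simp only [Real.norm_eq_abs, sq_abs, sum_const, card_univ, Fintype.card_fin, nsmul_eq_mul]
        rw [inv_pow, Real.sq_sqrt hN'.le, mul_inv_cancel₀ hN'.ne']
      rw [this, Real.sqrt_one]
    · rintro ⟨i, hi⟩ ⟨j, hj⟩ hij
      rw [Set.mem_singleton_iff] at hi hj
      exact absurd (Subtype.ext (hi.trans hj.symm)) hij
  obtain ⟨b, hb⟩ := hortho.exists_orthonormalBasis_extension_of_card_eq (by simp)
  refine ⟨fun i k => b i k, fun i j => ?_, fun k => ?_⟩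
  · have h1 := orthonormal_iff_ite.mp b.orthonormal i j
    rw [← h1, PiLp.inner_apply]
    exact sum_congr rfl fun k _ => by simp [mul_comm]
  · have h2 := hb ⟨0, hN⟩ (Set.mem_singleton _)
    show b ⟨0, hN⟩ k = _
    rw [h2]

variable {Ω : Type} [Fintype Ω] [DecidableEq Ω]

/-- Parseval for the orthonormal square system `u` -/
theorem parseval (u : Ω → Ω → ℝ) (hu : ∀ a b, ∑ ω, u a ω * u b ω = if a = b then 1 else 0)
    (x : Ω → ℝ) : ∑ b, (∑ ω, x ω * u b ω) ^ 2 = ∑ ω, x ω ^ 2 := by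
  classical
  -- the matrix `U` is orthogonal
  have h1 : (Matrix.of u) * (Matrix.of u).transpose = 1 := by
    ext a b
    rw [Matrix.mul_apply, Matrix.one_apply, ← hu a b]
    rfl
  have h2 : (Matrix.of u).transpose * (Matrix.of u) = 1 := mul_eq_one_comm.mp h1
  have h3 : ∀ ω ω', ∑ b, u b ω * u b ω' = if ω = ω' then 1 else 0 := by
    intro ω ω'
    have := congrFun (congrFun h2 ω) ω'
    rw [Matrix.mul_apply, Matrix.one_apply] at this
    exact this
  calc ∑ b, (∑ ω, x ω * u b ω) ^ 2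
      = ∑ b, ∑ ω, ∑ ω', x ω * x ω' * (u b ω * u b ω') := by
        refine sum_congr rfl fun b _ => ?_
        rw [sq, sum_mul_sum]
        exact sum_congr rfl fun ω _ => sum_congr rfl fun ω' _ => by ring
    _ = ∑ ω, ∑ ω', x ω * x ω' * ∑ b, (u b ω * u b ω') := by
        rw [sum_comm]
        refine sum_congr rfl fun ω _ => ?_
        rw [sum_comm]
        exact sum_congr rfl fun ω' _ => by rw [mul_sum]
    _ = ∑ ω, x ω ^ 2 := by
        refine sum_congr rfl fun ω _ => ?_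
        simp_rw [h3]
        simp [sq]

/-- the energy is `∑ (√λ_a - √λ_b)² N_ab²` -/
theorem E_eq {X I : Type} [Fintype I] (s : Site Ω X) (f : I → X → ℝ) :
    s.E f = ∑ i, ∑ a, ∑ b, (√(s.lam a) - √(s.lam b)) ^ 2 *
      (∑ ω, s.u a ω * f i (s.pos ω) * s.u b ω) ^ 2 := by
  unfold Site.E
  rw [mul_sum]
  refine sum_congr rfl fun i _ => ?_
  have hP : ∀ a, ∑ b, (∑ ω, s.u a ω * f i (s.pos ω) * s.u b ω) ^ 2
      = ∑ ω, s.u a ω ^ 2 * f i (s.pos ω) ^ 2 := by
    intro a
    rw [parseval s.u s.u_orth (fun ω => s.u a ω * f i (s.pos ω))]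
    exact sum_congr rfl fun ω _ => by ring
  have hsymm : ∀ a b, (∑ ω, s.u a ω * f i (s.pos ω) * s.u b ω)
      = (∑ ω, s.u b ω * f i (s.pos ω) * s.u a ω) := by
    intro a b
    exact sum_congr rfl fun ω _ => by ring
  have hA : ∑ a, ∑ b, s.lam a * (∑ ω, s.u a ω * f i (s.pos ω) * s.u b ω) ^ 2
      = ∑ a, s.lam a * ∑ ω, s.u a ω ^ 2 * f i (s.pos ω) ^ 2 := by
    refine sum_congr rfl fun a _ => ?_
    rw [← mul_sum, hP]
  have hB : ∑ a, ∑ b, s.lam b * (∑ ω, s.u a ω * f i (s.pos ω) * s.u b ω) ^ 2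
      = ∑ a, s.lam a * ∑ ω, s.u a ω ^ 2 * f i (s.pos ω) ^ 2 := by
    rw [sum_comm]
    refine sum_congr rfl fun a _ => ?_
    rw [← mul_sum, ← hP]
    congr 1
    exact sum_congr rfl fun b _ => by rw [hsymm]
  have hC : ∀ a b, (√(s.lam a) - √(s.lam b)) ^ 2 *
      (∑ ω, s.u a ω * f i (s.pos ω) * s.u b ω) ^ 2
      = s.lam a * (∑ ω, s.u a ω * f i (s.pos ω) * s.u b ω) ^ 2
        + s.lam b * (∑ ω, s.u a ω * f i (s.pos ω) * s.u b ω) ^ 2
        - 2 * (√(s.lam a * s.lam b) * (∑ ω, s.u a ω * f i (s.pos ω) * s.u b ω) ^ 2) := by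
    intro a b
    rw [Real.sqrt_mul (s.lam_nonneg a)]
    have ha := Real.sq_sqrt (s.lam_nonneg a)
    have hb := Real.sq_sqrt (s.lam_nonneg b)
    calc _ = (√(s.lam a) ^ 2 + √(s.lam b) ^ 2 - 2 * (√(s.lam a) * √(s.lam b))) *
          (∑ ω, s.u a ω * f i (s.pos ω) * s.u b ω) ^ 2 := by ring
      _ = _ := by rw [ha, hb]; ring
  simp_rw [hC, sum_sub_distrib, sum_add_distrib]
  rw [hA, hB]
  simp_rw [← mul_sum]
  ring

theorem E_nonneg {X I : Type} [Fintype I] (s : Site Ω X) (f : I → X → ℝ) : 0 ≤ s.E f := by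
  rw [E_eq]
  exact sum_nonneg fun i _ => sum_nonneg fun a _ => sum_nonneg fun b _ => by positivity

/-- the coordinate function `x ↦ c x` on the grid `{0, …, q - 1}` -/
noncomputable def gridf (q : ℕ) (c : ℝ) : Unit → Fin q → ℝ := fun _ x => c * (x : ℝ)

variable {q : ℕ}

/-- the refined one-site data -/
noncomputable def fine (s : Site Ω (Fin q)) (N : ℕ) (hN : 0 < N) (e : Fin N → Fin N → ℝ)
    (he : ∀ i j, ∑ k, e i k * e j k = if i = j then 1 else 0)
    (he0 : ∀ k, e ⟨0, hN⟩ k = (√(N : ℝ))⁻¹) : Site (Ω × Fin N) (Fin (q * N)) where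
  pos := fun ω => finProdFinEquiv (s.pos ω.1, ω.2)
  u := fun a ω => s.u a.1 ω.1 * e a.2 ω.2
  w := fun c ω => s.w c.1 ω.1 * (if c.2 = ω.2 then 1 else 0)
  lam := fun a => s.lam a.1 * (if a.2 = ⟨0, hN⟩ then 1 else 0)
  g := fun c => s.g c.1 / N
  lab := fun c => finProdFinEquiv (s.lab c.1, c.2)
  u_orth := by
    rintro ⟨a, i⟩ ⟨b, j⟩
    rw [Fintype.sum_prod_type]
    have : ∀ ω : Ω, ∑ k : Fin N, s.u a ω * e i k * (s.u b ω * e j k)
        = (s.u a ω * s.u b ω) * ∑ k, e i k * e j k := by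
      intro ω; rw [mul_sum]; exact sum_congr rfl fun k _ => by ring
    simp only [this]
    rw [← sum_mul, s.u_orth, he]
    by_cases h1 : a = b <;> by_cases h2 : i = j <;> simp [h1, h2]
  w_orth := by
    rintro ⟨a, i⟩ ⟨b, j⟩
    rw [Fintype.sum_prod_type]
    have : ∀ ω : Ω, ∑ k : Fin N, s.w a ω * (if i = k then (1 : ℝ) else 0) *
          (s.w b ω * (if j = k then 1 else 0))
        = (s.w a ω * s.w b ω) * (if i = j then 1 else 0) := by
      intro ω
      rw [Finset.sum_eq_single i]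
      · by_cases h : i = j
        · subst h; simp
        · simp [h, Ne.symm h]
      · intro k _ hk; rw [if_neg (fun hh => hk hh.symm)]; simp
      · intro h; exact absurd (mem_univ _) h
    simp only [this]
    rw [← sum_mul, s.w_orth]
    by_cases h1 : a = b <;> by_cases h2 : i = j <;> simp [h1, h2]
  lam_nonneg := by
    rintro ⟨a, i⟩
    dsimp only
    split_ifs
    · simpa using s.lam_nonneg a
    · simp
  lam_sum := by
    rw [Fintype.sum_prod_type]
    simp only [mul_ite, mul_one, mul_zero, sum_ite_eq', mem_univ, if_true]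
    exact s.lam_sum
  w_supp := by
    rintro ⟨c, i⟩ ⟨ω, k⟩ h
    dsimp only at h ⊢
    by_cases h2 : i = k
    · subst h2
      have : s.pos ω ≠ s.lab c := by
        intro hh; exact h (by rw [hh])
      rw [s.w_supp c ω this, zero_mul]
    · rw [if_neg h2, mul_zero]
  w_diag := by
    rintro ⟨c, i⟩ ⟨c', i'⟩ h
    dsimp only at h ⊢
    have h' := finProdFinEquiv.injective h
    rw [Prod.mk.injEq] at h'
    obtain ⟨hl, hi⟩ := h'
    subst hi
    have hN' : (0 : ℝ) < N := by exact_mod_cast hN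
    rw [Fintype.sum_prod_type]
    have key : ∀ (a : Ω) (j : Fin N) (c : Ω), ∑ ω : Ω × Fin N,
        s.u a ω.1 * e j ω.2 * (s.w c ω.1 * (if i = ω.2 then 1 else 0))
        = e j i * ∑ ω, s.u a ω * s.w c ω := by
      intro a j c
      rw [Fintype.sum_prod_type, mul_sum]
      refine sum_congr rfl fun ω _ => ?_
      rw [Finset.sum_eq_single i]
      · simp; ring
      · intro k _ hk; rw [if_neg (fun hh => hk hh.symm)]; simp
      · intro h; exact absurd (mem_univ _) h
    simp only [key]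
    have key2 : ∀ a : Ω, ∑ j : Fin N, s.lam a * (if j = ⟨0, hN⟩ then 1 else 0) *
        (e j i * ∑ ω, s.u a ω * s.w c ω) * (e j i * ∑ ω, s.u a ω * s.w c' ω)
        = (N : ℝ)⁻¹ * (s.lam a * (∑ ω, s.u a ω * s.w c ω) * (∑ ω, s.u a ω * s.w c' ω)) := by
      intro a
      rw [Finset.sum_eq_single ⟨0, hN⟩]
      · rw [if_pos rfl, he0]
        have : (√(N : ℝ))⁻¹ * (√(N : ℝ))⁻¹ = (N : ℝ)⁻¹ := by
          rw [← mul_inv, Real.mul_self_sqrt hN'.le]
        calc _ = ((√(N : ℝ))⁻¹ * (√(N : ℝ))⁻¹) *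
              (s.lam a * (∑ ω, s.u a ω * s.w c ω) * (∑ ω, s.u a ω * s.w c' ω)) := by ring
          _ = _ := by rw [this]
      · intro k _ hk; rw [if_neg hk]; simp
      · intro h; exact absurd (mem_univ _) h
    simp only [key2]
    rw [← mul_sum, s.w_diag c c' hl]
    by_cases h1 : c = c'
    · subst h1; simp; ring
    · have : ¬ ((c, i) = (c', i)) := by simpa using h1
      rw [if_neg h1, if_neg this, mul_zero]


theorem g_eq {X : Type} (s : Site Ω X) (c : Ω) :
    s.g c = ∑ a, s.lam a * (∑ ω, s.u a ω * s.w c ω) ^ 2 := by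
  have := s.w_diag c c rfl
  rw [if_pos rfl] at this
  rw [← this]
  exact sum_congr rfl fun a _ => by ring

theorem g_nonneg {X : Type} (s : Site Ω X) (c : Ω) : 0 ≤ s.g c := by
  rw [g_eq]
  exact sum_nonneg fun a _ => mul_nonneg (s.lam_nonneg a) (sq_nonneg _)

theorem g_sum {X : Type} (s : Site Ω X) : ∑ c, s.g c = 1 := by
  simp_rw [g_eq]
  rw [sum_comm]
  simp_rw [← mul_sum]
  have : ∀ a, ∑ c, (∑ ω, s.u a ω * s.w c ω) ^ 2 = 1 := by
    intro a
    rw [parseval s.w s.w_orth (s.u a)]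
    have := s.u_orth a a
    rw [if_pos rfl] at this
    rw [← this]
    exact sum_congr rfl fun ω _ => by ring
  simp_rw [this, mul_one]
  exact s.lam_sum

section fine

variable (s : Site Ω (Fin q)) (N : ℕ) (hN : 0 < N) (e : Fin N → Fin N → ℝ)
    (he : ∀ i j, ∑ k, e i k * e j k = if i = j then 1 else 0)
    (he0 : ∀ k, e ⟨0, hN⟩ k = (√(N : ℝ))⁻¹)

theorem S_fine : (fine s N hN e he he0).S = s.S := by
  unfold Site.S
  rw [Fintype.sum_prod_type]
  refine sum_congr rfl fun a _ => ?_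
  rw [Finset.sum_eq_single ⟨0, hN⟩]
  · show Real.negMulLog (s.lam a * (if (⟨0, hN⟩ : Fin N) = ⟨0, hN⟩ then 1 else 0)) = _
    rw [if_pos rfl, mul_one]
  · intro k _ hk
    show Real.negMulLog (s.lam a * (if k = ⟨0, hN⟩ then 1 else 0)) = _
    rw [if_neg hk, mul_zero, Real.negMulLog_zero]
  · intro h; exact absurd (mem_univ _) h

theorem h_fine : (fine s N hN e he he0).h = s.h + Real.log N := by
  have hN' : (0 : ℝ) < N := by exact_mod_cast hN
  unfold Site.h
  rw [Fintype.sum_prod_type]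
  have : ∀ c, ∑ _k : Fin N, Real.negMulLog (s.g c / N) =
      Real.negMulLog (s.g c) + s.g c * Real.log N := by
    intro c
    rw [sum_const, card_univ, Fintype.card_fin, nsmul_eq_mul]
    rcases eq_or_lt_of_le (g_nonneg s c) with h | h
    · rw [← h]; simp
    · rw [Real.negMulLog, Real.negMulLog, Real.log_div h.ne' hN'.ne']
      field_simp
      ring
  show ∑ c, ∑ _k : Fin N, Real.negMulLog (s.g c / N) = _
  simp_rw [this]
  rw [sum_add_distrib, ← sum_mul, g_sum, one_mul]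

theorem sum_fin_id (N : ℕ) : ∑ k : Fin N, (k : ℝ) = N * (N - 1) / 2 := by
  induction N with
  | zero => simp
  | succ n ih => rw [Fin.sum_univ_castSucc]; simp only [Fin.val_castSucc, Fin.val_last]; rw [ih]; push_cast; ring

theorem sum_fin_sq (N : ℕ) : ∑ k : Fin N, (k : ℝ) ^ 2 = N * (N - 1) * (2 * N - 1) / 6 := by
  induction N with
  | zero => simp
  | succ n ih => rw [Fin.sum_univ_castSucc]; simp only [Fin.val_castSucc, Fin.val_last]; rw [ih]; push_cast; ring

theorem E_fine : (fine s N hN e he he0).E (gridf (q * N) (1 / N)) =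
    s.E (gridf q 1) + 1 / 6 * (1 - 1 / (N : ℝ) ^ 2) := by
  have hN' : (0 : ℝ) < N := by exact_mod_cast hN
  have hss : (√(N : ℝ))⁻¹ * (√(N : ℝ))⁻¹ = (N : ℝ)⁻¹ := by
    rw [← mul_inv, Real.mul_self_sqrt hN'.le]
  set m : ℝ := (N - 1) / (2 * N) with hm
  set m2 : ℝ := (N - 1) * (2 * N - 1) / (6 * N ^ 2) with hm2
  -- position values
  have hpos : ∀ (ω : Ω) (k : Fin N), gridf (q * N) (1 / N) ()
      (finProdFinEquiv (s.pos ω, k)) = gridf q 1 () (s.pos ω) + k / N := by
    intro ω k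
    simp only [gridf, finProdFinEquiv_apply_val]
    push_cast
    field_simp
    ring
  -- sums over the cell
  have hc1 : ∀ x : ℝ, ∑ k : Fin N, (√(N : ℝ))⁻¹ * (√(N : ℝ))⁻¹ * (x + k / N) = x + m := by
    intro x
    rw [hss, ← mul_sum, sum_add_distrib, sum_const, card_univ, Fintype.card_fin, nsmul_eq_mul,
      ← sum_div, sum_fin_id, hm]
    field_simp
  have hc2 : ∀ x : ℝ, ∑ k : Fin N, (√(N : ℝ))⁻¹ * (√(N : ℝ))⁻¹ * (x + k / N) ^ 2
      = x ^ 2 + 2 * x * m + m2 := by
    intro x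
    have : ∀ k : Fin N, (x + (k : ℝ) / N) ^ 2 = x ^ 2 + 2 * x / N * k + (k : ℝ) ^ 2 / N ^ 2 := by
      intro k
      field_simp
      ring
    simp_rw [this]
    rw [hss, ← mul_sum, sum_add_distrib, sum_add_distrib, sum_const, card_univ, Fintype.card_fin,
      nsmul_eq_mul, ← sum_div, ← mul_sum, sum_fin_id, sum_fin_sq, hm, hm2]
    field_simp
  -- first term
  have h1 : ∑ a : Ω × Fin N, (fine s N hN e he he0).lam a * ∑ ω : Ω × Fin N,
        (fine s N hN e he he0).u a ω ^ 2 *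
          gridf (q * N) (1 / N) () ((fine s N hN e he he0).pos ω) ^ 2
      = ∑ a, s.lam a * ∑ ω, s.u a ω ^ 2 *
          (gridf q 1 () (s.pos ω) ^ 2 + 2 * gridf q 1 () (s.pos ω) * m + m2) := by
    rw [Fintype.sum_prod_type]
    refine sum_congr rfl fun a _ => ?_
    rw [Finset.sum_eq_single ⟨0, hN⟩]
    · show s.lam a * (if (⟨0, hN⟩ : Fin N) = ⟨0, hN⟩ then 1 else 0) * _ = _
      rw [if_pos rfl, mul_one]
      congr 1
      rw [Fintype.sum_prod_type]
      refine sum_congr rfl fun ω _ => ?_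
      rw [← hc2, mul_sum]
      refine sum_congr rfl fun k _ => ?_
      show (s.u a ω * e ⟨0, hN⟩ k) ^ 2 * gridf (q * N) (1 / N) ()
        (finProdFinEquiv (s.pos ω, k)) ^ 2 = _
      rw [he0, hpos]
      ring
    · intro k _ hk
      show s.lam a * (if k = ⟨0, hN⟩ then 1 else 0) * _ = _
      rw [if_neg hk]; simp
    · intro h; exact absurd (mem_univ _) h
  -- matrix elements
  have h2 : ∀ a b : Ω, ∑ ω : Ω × Fin N, (fine s N hN e he he0).u (a, ⟨0, hN⟩) ω *
        gridf (q * N) (1 / N) () ((fine s N hN e he he0).pos ω) *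
          (fine s N hN e he he0).u (b, ⟨0, hN⟩) ω
      = (∑ ω, s.u a ω * gridf q 1 () (s.pos ω) * s.u b ω) + (if a = b then m else 0) := by
    intro a b
    have : (if a = b then m else 0) = ∑ ω, s.u a ω * m * s.u b ω := by
      have h3 : ∑ ω, s.u a ω * m * s.u b ω = m * ∑ ω, s.u a ω * s.u b ω := by
        rw [mul_sum]; exact sum_congr rfl fun ω _ => by ring
      rw [h3, s.u_orth]; simp
    rw [this, ← sum_add_distrib, Fintype.sum_prod_type]
    refine sum_congr rfl fun ω _ => ?_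
    have h4 : s.u a ω * gridf q 1 () (s.pos ω) * s.u b ω + s.u a ω * m * s.u b ω
        = s.u a ω * s.u b ω * (gridf q 1 () (s.pos ω) + m) := by ring
    rw [h4, ← hc1, mul_sum]
    refine sum_congr rfl fun k _ => ?_
    show s.u a ω * e ⟨0, hN⟩ k * gridf (q * N) (1 / N) ()
        (finProdFinEquiv (s.pos ω, k)) * (s.u b ω * e ⟨0, hN⟩ k) = _
    rw [he0, hpos]
    ring
  have h5 : ∑ a : Ω × Fin N, ∑ b : Ω × Fin N,
        √((fine s N hN e he he0).lam a * (fine s N hN e he he0).lam b) *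
        (∑ ω : Ω × Fin N, (fine s N hN e he he0).u a ω *
        gridf (q * N) (1 / N) () ((fine s N hN e he he0).pos ω) *
          (fine s N hN e he he0).u b ω) ^ 2
      = ∑ a, ∑ b, √(s.lam a * s.lam b) *
        ((∑ ω, s.u a ω * gridf q 1 () (s.pos ω) * s.u b ω) + (if a = b then m else 0)) ^ 2 := by
    rw [Fintype.sum_prod_type]
    refine sum_congr rfl fun a _ => ?_
    rw [Finset.sum_eq_single ⟨0, hN⟩]
    · rw [Fintype.sum_prod_type]
      refine sum_congr rfl fun b _ => ?_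
      rw [Finset.sum_eq_single ⟨0, hN⟩]
      · rw [h2]
        show √(s.lam a * (if (⟨0, hN⟩ : Fin N) = ⟨0, hN⟩ then 1 else 0) *
          (s.lam b * (if (⟨0, hN⟩ : Fin N) = ⟨0, hN⟩ then 1 else 0))) * _ = _
        rw [if_pos rfl, mul_one, mul_one]
      · intro k _ hk
        show √(_ * (s.lam b * (if k = ⟨0, hN⟩ then 1 else 0))) * _ = _
        rw [if_neg hk]; simp
      · intro h; exact absurd (mem_univ _) h
    · intro k _ hk
      refine sum_eq_zero fun b _ => ?_
      show √((s.lam a * (if k = ⟨0, hN⟩ then 1 else 0)) * _) * _ = _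
      rw [if_neg hk]; simp
    · intro h; exact absurd (mem_univ _) h
  -- expand
  have h6 : ∑ a, s.lam a * ∑ ω, s.u a ω ^ 2 *
          (gridf q 1 () (s.pos ω) ^ 2 + 2 * gridf q 1 () (s.pos ω) * m + m2)
      = ∑ a, s.lam a * ∑ ω, s.u a ω ^ 2 * gridf q 1 () (s.pos ω) ^ 2
        + 2 * m * ∑ a, s.lam a * (∑ ω, s.u a ω * gridf q 1 () (s.pos ω) * s.u a ω) + m2 := by
    have hm2' : m2 = ∑ a, s.lam a * ∑ ω, s.u a ω ^ 2 * m2 := by
      have : ∀ a, s.lam a * ∑ ω, s.u a ω ^ 2 * m2 = s.lam a * m2 := by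
        intro a
        rw [← sum_mul]
        have := s.u_orth a a
        rw [if_pos rfl] at this
        have h7 : ∑ ω, s.u a ω ^ 2 = 1 := by
          rw [← this]; exact sum_congr rfl fun ω _ => by ring
        rw [h7, one_mul]
      simp_rw [this]
      rw [← sum_mul, s.lam_sum, one_mul]
    conv_rhs => rw [hm2']
    rw [mul_sum, ← sum_add_distrib, ← sum_add_distrib]
    refine sum_congr rfl fun a _ => ?_
    rw [← mul_assoc, mul_comm (2 * m) (s.lam a), mul_assoc, ← mul_add, ← mul_add]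
    congr 1
    rw [mul_sum, ← sum_add_distrib, ← sum_add_distrib]
    exact sum_congr rfl fun ω _ => by ring
  have h8 : ∑ a, ∑ b, √(s.lam a * s.lam b) *
        ((∑ ω, s.u a ω * gridf q 1 () (s.pos ω) * s.u b ω) + (if a = b then m else 0)) ^ 2
      = ∑ a, ∑ b, √(s.lam a * s.lam b) *
        (∑ ω, s.u a ω * gridf q 1 () (s.pos ω) * s.u b ω) ^ 2
        + 2 * m * ∑ a, s.lam a * (∑ ω, s.u a ω * gridf q 1 () (s.pos ω) * s.u a ω) + m ^ 2 := by
    have h9 : ∀ a, ∑ b, √(s.lam a * s.lam b) *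
        ((∑ ω, s.u a ω * gridf q 1 () (s.pos ω) * s.u b ω) + (if a = b then m else 0)) ^ 2
        = ∑ b, √(s.lam a * s.lam b) *
        (∑ ω, s.u a ω * gridf q 1 () (s.pos ω) * s.u b ω) ^ 2
        + (2 * m * (s.lam a * (∑ ω, s.u a ω * gridf q 1 () (s.pos ω) * s.u a ω))
          + s.lam a * m ^ 2) := by
      intro a
      have h10 : ∀ b, √(s.lam a * s.lam b) *
        ((∑ ω, s.u a ω * gridf q 1 () (s.pos ω) * s.u b ω) + (if a = b then m else 0)) ^ 2
        = √(s.lam a * s.lam b) *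
        (∑ ω, s.u a ω * gridf q 1 () (s.pos ω) * s.u b ω) ^ 2
        + (if a = b then (2 * m * (s.lam a * (∑ ω, s.u a ω * gridf q 1 () (s.pos ω) * s.u a ω))
          + s.lam a * m ^ 2) else 0) := by
        intro b
        by_cases hab : a = b
        · subst hab
          rw [if_pos rfl, if_pos rfl, Real.sqrt_mul_self (s.lam_nonneg a)]
          ring
        · rw [if_neg hab, if_neg hab]; ring
      simp_rw [h10]
      rw [sum_add_distrib]
      simp
    simp_rw [h9]
    rw [sum_add_distrib, sum_add_distrib, ← mul_sum, ← sum_mul, s.lam_sum]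
    ring
  have hE1 : (fine s N hN e he he0).E (gridf (q * N) (1 / N)) =
      2 * (∑ a : Ω × Fin N, (fine s N hN e he he0).lam a * ∑ ω : Ω × Fin N,
        (fine s N hN e he he0).u a ω ^ 2 *
          gridf (q * N) (1 / N) () ((fine s N hN e he he0).pos ω) ^ 2
        - ∑ a : Ω × Fin N, ∑ b : Ω × Fin N,
        √((fine s N hN e he he0).lam a * (fine s N hN e he he0).lam b) *
        (∑ ω : Ω × Fin N, (fine s N hN e he he0).u a ω *
        gridf (q * N) (1 / N) () ((fine s N hN e he he0).pos ω) *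
          (fine s N hN e he he0).u b ω) ^ 2) := by
    unfold Site.E
    rw [Fintype.sum_unique (ι := Unit)]
  have hE2 : s.E (gridf q 1) = 2 * (∑ a, s.lam a * ∑ ω, s.u a ω ^ 2 * gridf q 1 () (s.pos ω) ^ 2
      - ∑ a, ∑ b, √(s.lam a * s.lam b) *
        (∑ ω, s.u a ω * gridf q 1 () (s.pos ω) * s.u b ω) ^ 2) := by
    unfold Site.E
    rw [Fintype.sum_unique (ι := Unit)]
  rw [hE1, hE2, h1, h5, h6, h8]
  rw [hm, hm2]
  have hm3 : ((N : ℝ) - 1) * (2 * N - 1) / (6 * N ^ 2) - ((N - 1) / (2 * N)) ^ 2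
      = 1 / 12 * (1 - 1 / (N : ℝ) ^ 2) := by
    field_simp
    ring
  have h12 : (1 : ℝ) / 6 * (1 - 1 / (N : ℝ) ^ 2) =
      2 * (((N : ℝ) - 1) * (2 * N - 1) / (6 * N ^ 2) - ((N - 1) / (2 * N)) ^ 2) := by
    rw [hm3]; ring
  rw [h12]
  ring

end fine

/-- the exponent obtained from one-site data on the grid with spacing `hg` (rounding of points) -/
noncomputable def cval {Ω : Type} [Fintype Ω] [DecidableEq Ω] {q : ℕ} (s : Site Ω (Fin q))
    (hg : ℝ) : ℝ :=
  s.h - s.S + Real.log hg - 1 / 2 * Real.log (2 * Real.pi * Real.exp 1)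
    - Real.log ((√(s.E (gridf q hg)) + hg) / 2)

/-- the exponent obtained from one-site data by infinite subdivision of the cells
(grid units: spacing one) -/
noncomputable def cstar {Ω : Type} [Fintype Ω] [DecidableEq Ω] {q : ℕ} (s : Site Ω (Fin q)) : ℝ :=
  s.h - s.S - 1 / 2 * Real.log (2 * Real.pi * Real.exp 1)
    - 1 / 2 * Real.log (s.E (gridf q 1) + 1 / 6) + Real.log 2

/-- **Subdivision lemma.** -/
theorem exists_refine (s : Site Ω (Fin q)) {η : ℝ} (hη : 0 < η) :
    ∃ (Ω' : Type) (_ : Fintype Ω') (_ : DecidableEq Ω') (q' : ℕ) (s' : Site Ω' (Fin q')) (hg : ℝ),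
      0 < hg ∧ hg ≤ 1 ∧ cstar s - η ≤ cval s' hg := by
  obtain ⟨N, hNη⟩ := exists_nat_gt (3 / η)
  have hN' : (0 : ℝ) < N := lt_trans (by positivity) hNη
  have hN : 0 < N := by exact_mod_cast hN'
  obtain ⟨e, he, he0⟩ := exists_basis N hN
  have hN1 : (1 : ℝ) ≤ N := by exact_mod_cast hN
  refine ⟨Ω × Fin N, inferInstance, inferInstance, q * N, fine s N hN e he he0, 1 / N,
    by positivity, by rw [div_le_one hN']; exact hN1, ?_⟩
  unfold cstar cval
  rw [h_fine, S_fine, E_fine]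
  have hE := E_nonneg s (gridf q 1)
  set E := s.E (gridf q 1) with hEdef
  have hx0 : 0 < √(E + 1 / 6) := Real.sqrt_pos.mpr (by linarith)
  have hx1 : (1 : ℝ) / 3 ≤ √(E + 1 / 6) := by
    apply Real.le_sqrt_of_sq_le
    norm_num
    linarith
  have h1 : √(E + 1 / 6 * (1 - 1 / (N : ℝ) ^ 2)) ≤ √(E + 1 / 6) := by
    apply Real.sqrt_le_sqrt
    have : (0 : ℝ) ≤ 1 / (N : ℝ) ^ 2 := by positivity
    linarith
  have h2 : Real.log ((√(E + 1 / 6 * (1 - 1 / (N : ℝ) ^ 2)) + 1 / N) / 2)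
      ≤ Real.log ((√(E + 1 / 6) + 1 / N) / 2) := by
    apply Real.log_le_log (by positivity)
    linarith
  have h3 : Real.log ((√(E + 1 / 6) + 1 / N) / 2)
      ≤ 1 / 2 * Real.log (E + 1 / 6) - Real.log 2 + η := by
    have h4 : (√(E + 1 / 6) + 1 / N) / 2 = √(E + 1 / 6) * (1 + 1 / (N * √(E + 1 / 6))) / 2 := by
      field_simp
    rw [h4, Real.log_div (by positivity) (by norm_num),
      Real.log_mul hx0.ne' (by positivity), Real.log_sqrt (by linarith)]
    have h5 : Real.log (1 + 1 / (N * √(E + 1 / 6))) ≤ 1 / (N * √(E + 1 / 6)) := by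
      have := Real.log_le_sub_one_of_pos (show (0 : ℝ) < 1 + 1 / (N * √(E + 1 / 6)) by positivity)
      linarith
    have h6 : 1 / (N * √(E + 1 / 6)) ≤ η := by
      rw [div_le_iff₀ (by positivity)]
      have h7 : 3 < N * η := by
        rw [div_lt_iff₀ hη] at hNη; linarith
      have h8 : (3 : ℝ) * (1 / 3) ≤ (N * η) * √(E + 1 / 6) :=
        mul_le_mul h7.le hx1 (by norm_num) (by positivity)
      linarith
    linarith
  have h9 : Real.log (1 / (N : ℝ)) = - Real.log N := by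
    rw [one_div, Real.log_inv]
  rw [h9]
  linarith

end Pool.Agent.H785R2.LP
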